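import Pool.Agent.V7H35.OddCrossGap

/-!
# The maximum number of intersections of cross-Sperner families, odd ground sets

We prove the exact value `m (2 * d + 1) = 2 ^ (2 * d + 1) - 2 ^ (d + 1) - 2 ^ d + 1` for every `d`.

Upper bound.  Pass to complements and let `P`, `Q` be the down-sets generated by the complements of
the members of the two families.  The number `x` of intersections satisfies
`x ≤ #(P \ Q) * #(Q \ P)` and `x ≤ #(P ⊻ Q) - #(P ∪ Q)`, where `P ⊻ Q` is the family of all unions.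
The new ingredient is the bilinear gap inequality `Pool.Agent.V7H35.OddCross.gap`: the number of
subsets of the ground set which are not in `P ⊻ Q` is at least `(2 ^ s - #P) * (2 ^ t - #Q)` when
`s + t = n + 1`, `#P ≤ 2 ^ s`, `#Q ≤ 2 ^ t` and at least one of the families has at least half the
allowed size.
-/

namespace Pool.Agent.Results.MP_841146_co.OddCrossSpernerH35

open Finset
open scoped FinsetFamily

/-- Two families of subsets of `Fin n` are cross-Sperner if no member of the first is contained in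
or contains a member of the second (non-strict inclusion). -/
def CrossSperner {n : ℕ} (𝒜 ℬ : Finset (Finset (Fin n))) : Prop :=
  ∀ A ∈ 𝒜, ∀ B ∈ ℬ, ¬ A ⊆ B ∧ ¬ B ⊆ A

/-- The family of all intersections `A ∩ B` with `A` in the first and `B` in the second family. -/
def inters {n : ℕ} (𝒜 ℬ : Finset (Finset (Fin n))) : Finset (Finset (Fin n)) :=
  (𝒜 ×ˢ ℬ).image fun p => p.1 ∩ p.2

/-- The set of all values of the number of intersections over cross-Sperner pairs. -/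
def values (n : ℕ) : Set ℕ :=
  {k | ∃ 𝒜 ℬ : Finset (Finset (Fin n)), CrossSperner 𝒜 ℬ ∧ (inters 𝒜 ℬ).card = k}

/-- `m n` is the largest number of intersections of a cross-Sperner pair. -/
noncomputable def m (n : ℕ) : ℕ := sSup (values n)

/-- The down-set generated by the complements of the members of a family. -/
def down {n : ℕ} (𝒜 : Finset (Finset (Fin n))) : Finset (Finset (Fin n)) :=
  univ.filter fun X => ∃ A ∈ 𝒜, X ⊆ Aᶜ

theorem mem_down {n : ℕ} {𝒜 : Finset (Finset (Fin n))} {X : Finset (Fin n)} :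
    X ∈ down 𝒜 ↔ ∃ A ∈ 𝒜, X ⊆ Aᶜ := by
  simp [down]

theorem down_isLowerSet {n : ℕ} (𝒜 : Finset (Finset (Fin n))) :
    IsLowerSet (down 𝒜 : Set (Finset (Fin n))) := by
  intro X Y hYX hX
  rw [mem_coe, mem_down] at hX ⊢
  obtain ⟨A, hA, hXA⟩ := hX
  exact ⟨A, hA, subset_trans hYX hXA⟩

theorem final_num (D a b w x s : ℤ) (hD : 1 ≤ D) (ha : 0 ≤ a) (hb : 0 ≤ b) (hw : 1 ≤ w)
    (hx1 : x ≤ a * b) (hx2 : x + (a + b + w) ≤ s) (hs : s ≤ 2 * D ^ 2)
    (hgap : D ≤ a + w → a + w ≤ 2 * D → b + w ≤ 2 * D →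
      (2 * D - (a + w)) * (2 * D - (b + w)) + s ≤ 2 * D ^ 2) :
    x ≤ (D - 1) * (2 * D - 1) := by
  by_contra hcon
  push Not at hcon
  have hcon' : (D - 1) * (2 * D - 1) + 1 ≤ x := hcon
  have hsum : a + b ≤ 3 * D - 3 := by nlinarith
  rcases le_or_gt a (D - 1) with h1 | h1
  · rcases le_or_gt b (2 * D - 1) with h2 | h2
    · have : a * b ≤ (D - 1) * (2 * D - 1) := mul_le_mul h1 h2 hb (by linarith)
      linarith
    · have : a * b ≤ a * (3 * D - 3 - a) := mul_le_mul_of_nonneg_left (by linarith) ha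
      nlinarith
  rcases le_or_gt b (D - 1) with h2 | h2
  · rcases le_or_gt a (2 * D - 1) with h3 | h3
    · have : a * b ≤ (2 * D - 1) * (D - 1) := mul_le_mul h3 h2 hb (by linarith)
      linarith
    · have : a * b ≤ (3 * D - 3 - b) * b := mul_le_mul_of_nonneg_right (by linarith) hb
      nlinarith
  -- now `a, b ≥ D`
  have h1' : D ≤ a := by linarith
  have h2' : D ≤ b := by linarith
  rcases le_or_gt (2 * D) (a + w) with h3 | h3
  · nlinarith
  rcases le_or_gt (2 * D) (b + w) with h4 | h4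
  · nlinarith
  have hg := hgap (by linarith) (by linarith) (by linarith)
  have : (2 * D - (b + w)) ≤ (2 * D - (a + w)) * (2 * D - (b + w)) := by
    nlinarith
  nlinarith

theorem upper {d : ℕ} (𝒜 ℬ : Finset (Finset (Fin (2 * d + 1)))) (h : CrossSperner 𝒜 ℬ) :
    ((inters 𝒜 ℬ).card : ℤ) ≤ (2 ^ d - 1) * (2 * 2 ^ d - 1) := by
  have hD : (1 : ℤ) ≤ 2 ^ d := one_le_pow₀ (by norm_num)
  rcases 𝒜.eq_empty_or_nonempty with rfl | ⟨A₀, hA₀⟩
  · have : (inters (∅ : Finset (Finset (Fin (2 * d + 1)))) ℬ).card = 0 := by simp [inters]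
    rw [this]
    push_cast
    exact mul_nonneg (by linarith) (by linarith)
  rcases ℬ.eq_empty_or_nonempty with rfl | ⟨B₀, hB₀⟩
  · have : (inters 𝒜 (∅ : Finset (Finset (Fin (2 * d + 1))))).card = 0 := by simp [inters]
    rw [this]
    push_cast
    exact mul_nonneg (by linarith) (by linarith)
  set P := down 𝒜 with hPdef
  set Q := down ℬ with hQdef
  have hP : IsLowerSet (P : Set (Finset (Fin (2 * d + 1)))) := down_isLowerSet 𝒜
  have hQ : IsLowerSet (Q : Set (Finset (Fin (2 * d + 1)))) := down_isLowerSet ℬ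
  have hAP : ∀ A ∈ 𝒜, Aᶜ ∈ P := fun A hA => mem_down.2 ⟨A, hA, Subset.rfl⟩
  have hBQ : ∀ B ∈ ℬ, Bᶜ ∈ Q := fun B hB => mem_down.2 ⟨B, hB, Subset.rfl⟩
  have hAQ : ∀ A ∈ 𝒜, Aᶜ ∉ Q := by
    intro A hA hAQ
    obtain ⟨B, hB, hAB⟩ := mem_down.1 hAQ
    exact (h A hA B hB).2 (compl_subset_compl.1 hAB)
  have hBP : ∀ B ∈ ℬ, Bᶜ ∉ P := by
    intro B hB hBP
    obtain ⟨A, hA, hAB⟩ := mem_down.1 hBP
    exact (h A hA B hB).1 (compl_subset_compl.1 hAB)
  have h0P : ∅ ∈ P := mem_down.2 ⟨A₀, hA₀, empty_subset _⟩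
  have h0Q : ∅ ∈ Q := mem_down.2 ⟨B₀, hB₀, empty_subset _⟩
  -- first bound
  have hcA : #𝒜 ≤ #(P \ Q) := by
    rw [← card_image_of_injective 𝒜 compl_injective]
    refine card_le_card ?_
    intro X hX
    rw [mem_image] at hX
    obtain ⟨A, hA, rfl⟩ := hX
    exact mem_sdiff.2 ⟨hAP A hA, hAQ A hA⟩
  have hcB : #ℬ ≤ #(Q \ P) := by
    rw [← card_image_of_injective ℬ compl_injective]
    refine card_le_card ?_
    intro X hX
    rw [mem_image] at hX
    obtain ⟨B, hB, rfl⟩ := hX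
    exact mem_sdiff.2 ⟨hBQ B hB, hBP B hB⟩
  have hx1 : #(inters 𝒜 ℬ) ≤ #(P \ Q) * #(Q \ P) := by
    calc #(inters 𝒜 ℬ) ≤ #(𝒜 ×ˢ ℬ) := card_image_le
      _ = #𝒜 * #ℬ := card_product _ _
      _ ≤ _ := Nat.mul_le_mul hcA hcB
  -- second bound
  have hsub : P ∪ Q ⊆ P ⊻ Q := by
    intro X hX
    rw [mem_sups]
    rcases mem_union.1 hX with hX | hX
    · exact ⟨X, hX, ∅, h0Q, by simp⟩
    · exact ⟨∅, h0P, X, hX, by simp⟩
  have hx2 : #(inters 𝒜 ℬ) + #(P ∪ Q) ≤ #(P ⊻ Q) := by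
    rw [← card_image_of_injective (inters 𝒜 ℬ) compl_injective, ← card_union_of_disjoint]
    · refine card_le_card (union_subset ?_ hsub)
      intro X hX
      rw [mem_image] at hX
      obtain ⟨Y, hY, rfl⟩ := hX
      rw [inters, mem_image] at hY
      obtain ⟨⟨A, B⟩, hAB, rfl⟩ := hY
      rw [mem_product] at hAB
      rw [mem_sups]
      exact ⟨Aᶜ, hAP A hAB.1, Bᶜ, hBQ B hAB.2, by simp [compl_inter]⟩
    · rw [disjoint_left]
      intro X hX
      rw [mem_image] at hX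
      obtain ⟨Y, hY, rfl⟩ := hX
      rw [inters, mem_image] at hY
      obtain ⟨⟨A, B⟩, hAB, rfl⟩ := hY
      rw [mem_product] at hAB
      rw [mem_union, not_or]
      constructor
      · intro hc
        refine hBP B hAB.2 (hP ?_ hc)
        show Bᶜ ⊆ (A ∩ B)ᶜ
        exact compl_subset_compl.2 inter_subset_right
      · intro hc
        refine hAQ A hAB.1 (hQ ?_ hc)
        show Aᶜ ⊆ (A ∩ B)ᶜ
        exact compl_subset_compl.2 inter_subset_left
  have hw : 1 ≤ #(P ∩ Q) := card_pos.2 ⟨∅, mem_inter.2 ⟨h0P, h0Q⟩⟩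
  have hcP : #(P \ Q) + #(P ∩ Q) = #P := card_sdiff_add_card_inter P Q
  have hcQ : #(Q \ P) + #(P ∩ Q) = #Q := by
    rw [inter_comm]; exact card_sdiff_add_card_inter Q P
  have hcU : #(P \ Q) + #(Q \ P) + #(P ∩ Q) = #(P ∪ Q) := by
    have := card_union_add_card_inter P Q
    omega
  have hs : #(P ⊻ Q) ≤ 2 ^ (2 * d + 1) := by
    calc #(P ⊻ Q) ≤ #(univ : Finset (Finset (Fin (2 * d + 1)))) := card_le_univ _
      _ = 2 ^ (2 * d + 1) := by simp
  have hpow : (2 : ℤ) ^ (2 * d + 1) = 2 * (2 ^ d) ^ 2 := by ring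
  have hpowR : (2 : ℝ) ^ (2 * d + 1) = 2 * (2 ^ d) ^ 2 := by ring
  refine final_num (2 ^ d) (#(P \ Q)) (#(Q \ P)) (#(P ∩ Q)) _ (#(P ⊻ Q)) hD (by positivity)
    (by positivity) (by exact_mod_cast hw) (by exact_mod_cast hx1) ?_ ?_ ?_
  · have : #(inters 𝒜 ℬ) + (#(P \ Q) + #(Q \ P) + #(P ∩ Q)) ≤ #(P ⊻ Q) := by
      rw [hcU]; exact hx2
    exact_mod_cast this
  · rw [← hpow]; exact_mod_cast hs
  · intro h1 h2 h3
    have h1' : (2 : ℝ) ^ d ≤ #P := by
      rw [← hcP]; exact_mod_cast h1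
    have h2' : (#P : ℝ) ≤ 2 * 2 ^ d := by
      rw [← hcP]; exact_mod_cast h2
    have h3' : (#Q : ℝ) ≤ 2 * 2 ^ d := by
      rw [← hcQ]; exact_mod_cast h3
    have key := Pool.Agent.V7H35.OddCross.gap (univ : Finset (Fin (2 * d + 1))) P Q (d + 1) (d + 1)
      hP hQ (fun X _ => subset_univ X) (fun X _ => subset_univ X) (by simp; omega)
      (by rw [pow_succ]; linarith) (by rw [pow_succ]; linarith)
      (Or.inl (by rw [pow_succ]; linarith))
    rw [card_univ, Fintype.card_fin, hpowR, pow_succ, ← hcP, ← hcQ] at key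
    have key' : (2 * (2 : ℝ) ^ d - (((#(P \ Q) : ℕ) : ℝ) + ((#(P ∩ Q) : ℕ) : ℝ))) *
        (2 * 2 ^ d - (((#(Q \ P) : ℕ) : ℝ) + ((#(P ∩ Q) : ℕ) : ℝ))) + ((#(P ⊻ Q) : ℕ) : ℝ) ≤
        2 * (2 ^ d) ^ 2 := by
      push_cast at key
      linarith
    exact_mod_cast key'

/-- The construction. -/
theorem lower (d : ℕ) : ∃ 𝒜 ℬ : Finset (Finset (Fin (2 * d + 1))), CrossSperner 𝒜 ℬ ∧
    (inters 𝒜 ℬ).card = (2 ^ d - 1) * (2 ^ (d + 1) - 1) := by
  obtain ⟨X, -, hX⟩ := exists_subset_card_eq (s := (univ : Finset (Fin (2 * d + 1)))) (n := d)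
    (by simp; omega)
  have hY : #Xᶜ = d + 1 := by
    rw [card_compl, Fintype.card_fin, hX]; omega
  have hdis : ∀ A ⊆ X, ∀ B ⊆ Xᶜ, (A ∪ B) ∩ X = A ∧ (A ∪ B) ∩ Xᶜ = B := by
    intro A hA B hB
    constructor
    · ext z
      simp only [mem_inter, mem_union]
      constructor
      · rintro ⟨h | h, hz⟩
        · exact h
        · exact absurd hz (mem_compl.1 (hB h))
      · intro h
        exact ⟨Or.inl h, hA h⟩
    · ext z
      simp only [mem_inter, mem_union]
      constructor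
      · rintro ⟨h | h, hz⟩
        · exact absurd (hA h) (mem_compl.1 hz)
        · exact h
      · intro h
        exact ⟨Or.inr h, hB h⟩
  have hint : ∀ A ⊆ X, ∀ B ⊆ Xᶜ, (A ∪ Xᶜ) ∩ (X ∪ B) = A ∪ B := by
    intro A hA B hB
    ext z
    simp only [mem_inter, mem_union, mem_compl]
    by_cases hz : z ∈ X
    · have : z ∉ B := fun h => mem_compl.1 (hB h) hz
      simp [hz, this]
    · have : z ∉ A := fun h => hz (hA h)
      simp [hz, this]
  refine ⟨X.ssubsets.image (fun A => A ∪ Xᶜ), Xᶜ.ssubsets.image (fun B => X ∪ B), ?_, ?_⟩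
  · intro A' hA' B' hB'
    rw [mem_image] at hA' hB'
    obtain ⟨A, hA, rfl⟩ := hA'
    obtain ⟨B, hB, rfl⟩ := hB'
    rw [mem_ssubsets] at hA hB
    constructor
    · intro hc
      refine hB.2 ?_
      have h1 : Xᶜ ⊆ X ∪ B := subset_trans subset_union_right hc
      intro z hz
      rcases mem_union.1 (h1 hz) with h | h
      · exact absurd h (mem_compl.1 hz)
      · exact h
    · intro hc
      refine hA.2 ?_
      have h1 : X ⊆ A ∪ Xᶜ := subset_trans subset_union_left hc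
      intro z hz
      rcases mem_union.1 (h1 hz) with h | h
      · exact h
      · exact absurd hz (mem_compl.1 h)
  · have himg : inters (X.ssubsets.image (fun A => A ∪ Xᶜ)) (Xᶜ.ssubsets.image (fun B => X ∪ B)) =
        (X.ssubsets ×ˢ Xᶜ.ssubsets).image (fun p => p.1 ∪ p.2) := by
      ext Z
      simp only [inters, mem_image, mem_product, Prod.exists, mem_ssubsets]
      constructor
      · rintro ⟨_, _, ⟨⟨A, hA, rfl⟩, ⟨B, hB, rfl⟩⟩, rfl⟩
        exact ⟨A, B, ⟨hA, hB⟩, (hint A hA.1 B hB.1).symm⟩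
      · rintro ⟨A, B, ⟨hA, hB⟩, rfl⟩
        exact ⟨_, _, ⟨⟨A, hA, rfl⟩, ⟨B, hB, rfl⟩⟩, hint A hA.1 B hB.1⟩
    rw [himg, card_image_of_injOn, card_product]
    · have hss : ∀ s : Finset (Fin (2 * d + 1)), #s.ssubsets = 2 ^ #s - 1 := by
        intro s
        rw [ssubsets, card_erase_of_mem (mem_powerset_self s), card_powerset]
      rw [hss, hss, hX, hY]
    · rintro ⟨A, B⟩ h1 ⟨A', B'⟩ h2 h3
      rw [mem_coe, mem_product, mem_ssubsets, mem_ssubsets] at h1 h2
      simp only at h1 h2 h3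
      have e1 := hdis A h1.1.1 B h1.2.1
      have e2 := hdis A' h2.1.1 B' h2.2.1
      rw [h3] at e1
      rw [Prod.mk.injEq]
      exact ⟨e1.1.symm.trans e2.1, e1.2.symm.trans e2.2⟩

/-- For every odd number `2 * d + 1` the maximum number `m (2 * d + 1)` of intersections of a pair
of cross-Sperner families of subsets of a `(2 * d + 1)`-element set is attained and equals
`2 ^ (2 * d + 1) - 2 ^ (d + 1) - 2 ^ d + 1`. -/
theorem result (d : ℕ) : IsGreatest (values (2 * d + 1)) (m (2 * d + 1)) ∧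
    (m (2 * d + 1) : ℤ) = 2 ^ (2 * d + 1) - 2 ^ (d + 1) - 2 ^ d + 1 := by
  have hD : 1 ≤ 2 ^ d := Nat.one_le_two_pow
  have hcast : (((2 ^ d - 1) * (2 ^ (d + 1) - 1) : ℕ) : ℤ) = (2 ^ d - 1) * (2 * 2 ^ d - 1) := by
    have h2 : 1 ≤ 2 ^ (d + 1) := Nat.one_le_two_pow
    push_cast [Nat.cast_sub hD, Nat.cast_sub h2]
    ring
  have hg : IsGreatest (values (2 * d + 1)) ((2 ^ d - 1) * (2 ^ (d + 1) - 1)) := by
    refine ⟨lower d, ?_⟩
    rintro k ⟨𝒜, ℬ, hAB, rfl⟩
    have := upper 𝒜 ℬ hAB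
    rw [← hcast] at this
    exact_mod_cast this
  have hm : m (2 * d + 1) = (2 ^ d - 1) * (2 ^ (d + 1) - 1) := hg.csSup_eq
  refine ⟨by rw [hm]; exact hg, ?_⟩
  rw [hm, hcast]
  ring

end Pool.Agent.Results.MP_841146_co.OddCrossSpernerH35
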